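import Mathlib
import Pool.Agent.Helper278.Defs
import Pool.Agent.Helper278.DefsG
import Pool.Agent.Helper278.CEStmt
import Pool.Agent.Helper278.CEPi
import Pool.Agent.Helper278.CENeg
import Pool.Agent.Helper278.CEIter
import Pool.Agent.Helper278.CEExist

set_option autoImplicit false

open scoped InnerProductSpace

namespace Pool.Agent.Results.MP_755d6b_an.Pair

open Pool.Agent.Helper278 Pool.Agent.Helper278.CE

universe w

/-- There are II₁ factors `N` and `M` that are elementarily equivalent as tracial von Neumann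
algebras but not elementarily equivalent as C*-algebras. -/
theorem result :
    ∃ (H K : Type) (_ : NormedAddCommGroup H) (_ : InnerProductSpace ℂ H) (_ : CompleteSpace H)
      (_ : NormedAddCommGroup K) (_ : InnerProductSpace ℂ K) (_ : CompleteSpace K)
      (N : VonNeumannAlgebra H) (τ : Elt N → ℂ) (M : VonNeumannAlgebra K) (σ : Elt M → ℂ),
      IsIIOneFactor N τ ∧ IsIIOneFactor M σ ∧ TracialElemEquiv τ σ ∧
        ¬ CStarElemEquiv.{w} (Elt N) (Elt M) ∧
        NormUltrapowersExist.{w} (Elt N) ∧ NormUltrapowersExist.{w} (Elt M) := by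
  obtain ⟨U, hU⟩ : ∃ U : Ultrafilter ℕ, ∀ n, {n} ∉ U :=
    ⟨Filter.hyperfilter ℕ, fun n => (Set.finite_singleton n).notMem_hyperfilter⟩
  obtain ⟨Q, _, _, _, _, π, φ, hπ⟩ := exists_ultrapower TG U
  have hd : IsDiffuse NG := diffuse_of_factor TG center_trivial infinite_dim
  have hL : LyapProp TG.τ := lyapProp TG hd
  obtain ⟨K, _, _, _, j, hj1, hj2⟩ := exists_gns (sigma_trAlg hπ)
  have hB := ball_ultra hU hπ
  have hII : IsIIOneFactor (MM j) (tauM j) := isIIOne_MM (sigma_trAlg hπ) hj1 hj2 hB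
    (central_scalar hπ hL center_trivial) (infinite_Q hπ infinite_dim)
  refine ⟨EllTwo Gr, K, inferInstance, inferInstance, inferInstance, inferInstance, inferInstance,
    inferInstance, NG, (fun x => TG.τ x), MM j, tauM j, isIIOne, hII,
    elemEquiv hU hπ hj1 hj2 hII U hU, ?_, normUltrapowersExist _, normUltrapowersExist _⟩
  rintro ⟨I, J, U', V', P, R, _, _, _, _, _, _, θ, ρ, hθ, hρ, ⟨e⟩⟩
  have h1 : PiProp (Elt (MM j)) := fun X Y => pi_prop hU hπ hj1 hj2 X Y
  exact not_piProp U' θ hθ ((piProp_ultra h1 V' ρ hρ).of_equiv e)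

end Pool.Agent.Results.MP_755d6b_an.Pair
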